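import Pool.Agent.Helper79.GL4.GoalsB

/-! Counting special pairs (packet E2 of MP_27a5f8_al). -/

set_option linter.unusedVariables false

namespace Pool.Agent.Helper27.GL4E2

open GL4 Module Submodule

/-- the arithmetic of `[n] [θ] = [c] [c - 1]` -/
theorem arith {q c n θ : ℕ} (hq : 2 ≤ q) (hc : 2 ≤ c) (hn : c ≤ n)
    (h : br q n * br q θ = br q c * br q (c - 1)) : n = c ∧ θ = c - 1 := by
  have hc1 : 1 ≤ br q c := br_pos (by omega)
  have hc2 : 1 ≤ br q (c - 1) := br_pos (by omega)
  have hn1 : br q c ≤ br q n := br_mono hn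
  have hθ1 : θ ≤ c - 1 := by
    by_contra hlt
    push Not at hlt
    have h1 : br q (c - 1) < br q θ := br_strictMono (by omega) hlt
    have h2 : br q c * br q (c - 1) < br q n * br q θ := by
      calc br q c * br q (c - 1) < br q c * br q θ := Nat.mul_lt_mul_of_pos_left h1 (by omega)
        _ ≤ br q n * br q θ := Nat.mul_le_mul_right _ hn1
    omega
  have hθ2 : θ = c - 1 := by
    by_contra hne
    have hlt : θ + 1 ≤ c - 1 := by omega
    have hz : ((q : ℤ) ^ n - 1) * ((q : ℤ) ^ θ - 1) = ((q : ℤ) ^ c - 1) * ((q : ℤ) ^ (c - 1) - 1) := by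
      rw [← br_mul q n, ← br_mul q θ, ← br_mul q c, ← br_mul q (c - 1)]
      have h' : (br q n : ℤ) * br q θ = br q c * br q (c - 1) := by exact_mod_cast h
      linear_combination ((q : ℤ) - 1) ^ 2 * h'
    have hdvd : (q : ℤ) ^ (θ + 1) ∣ (q : ℤ) ^ θ := by
      have e : (q : ℤ) ^ θ = (q : ℤ) ^ n * (q : ℤ) ^ θ - (q : ℤ) ^ n
          - (q : ℤ) ^ c * (q : ℤ) ^ (c - 1) + (q : ℤ) ^ c + (q : ℤ) ^ (c - 1) := by
        linear_combination (-1 : ℤ) * hz
      rw [e]
      have d1 : (q : ℤ) ^ (θ + 1) ∣ (q : ℤ) ^ n := pow_dvd_pow _ (by omega)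
      have d2 : (q : ℤ) ^ (θ + 1) ∣ (q : ℤ) ^ c := pow_dvd_pow _ (by omega)
      have d3 : (q : ℤ) ^ (θ + 1) ∣ (q : ℤ) ^ (c - 1) := pow_dvd_pow _ (by omega)
      exact dvd_add (dvd_add (dvd_sub (dvd_sub (Dvd.dvd.mul_right d1 _) d1)
        (Dvd.dvd.mul_right d2 _)) d2) d3
    have hle := Int.le_of_dvd (by positivity) hdvd
    have hlt2 : (q : ℤ) ^ θ < (q : ℤ) ^ (θ + 1) :=
      pow_lt_pow_right₀ (by exact_mod_cast (by omega : 1 < q)) (by omega)
    omega
  refine ⟨?_, hθ2⟩
  rw [hθ2] at h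
  have h3 : br q n = br q c := Nat.eq_of_mul_eq_mul_right (by omega) h
  by_contra hne
  have h4 : br q c < br q n := br_strictMono (by omega) (by omega)
  omega

theorem e2 : E2 := by
  classical
  intro F _ _ W _ _ _ G c n B C N L hWS hc hcn hm hCN
  set q := Nat.card F with hq
  set m := finrank F W with hm'
  have hq2 : 2 ≤ q := by
    rw [hq]
    exact Finite.one_lt_card
  have : Fintype (Submodule F W) := Fintype.ofFinite _
  have hBC := hWS.bc
  have hNN := hWS.nn
  -- counting lemmas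
  have cpts : ∀ U : Submodule F W,
      (Finset.univ.filter (fun x : Submodule F W => Pt x ∧ x ≤ U)).card = br q (finrank F U) := by
    intro U
    rw [← card_pts_le U, Nat.card_eq_fintype_card, Fintype.card_subtype]
  have chys : ∀ U : Submodule F W,
      (Finset.univ.filter (fun H : Submodule F W => Hy H ∧ U ≤ H)).card =
        br q (m - finrank F U) := by
    intro U
    rw [← card_hys_ge U, Nat.card_eq_fintype_card, Fintype.card_subtype]
  -- a special pair
  have hW : (⊤ : Submodule F W) ≠ ⊥ := by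
    intro h
    have : finrank F (⊤ : Submodule F W) = 0 := by rw [h, finrank_bot]
    rw [finrank_top] at this
    omega
  obtain ⟨x0, hx0, -⟩ := exists_pt_le hW
  have hnle : ¬ N x0 ≤ x0 := by
    intro h
    have h1 := Submodule.finrank_mono h
    rw [hNN.dimN x0 hx0, hx0] at h1
    omega
  obtain ⟨y0, hy0, hy0N, hy0x⟩ := exists_pt_not_le hnle
  have hy0x' : y0 ≠ x0 := fun h => hy0x (le_of_eq h)
  -- independence of the special pair
  have hindep : ∀ x y x' y', Pt x → Pt y → y ≤ N x → y ≠ x → Pt x' → Pt y' → y' ≤ N x' → y' ≠ x' →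
      finrank F ↥(B x ⊔ B y) = finrank F ↥(B x' ⊔ B y') := by
    intro x y x' y' hx hy hyN hyx hx' hy' hyN' hyx'
    obtain ⟨g, hg, hgx⟩ := hBC.ptT x x' hx hx'
    have h1 : im g y ≤ N x' := by
      rw [← hgx, hNN.eqN g hg x hx]
      exact im_mono g hyN
    have h2 : im g y ≠ x' := by
      rw [← hgx]
      intro h
      exact hyx ((im_inj g).1 h)
    obtain ⟨k, hk, hkx, hky⟩ := hNN.trN x' (im g y) y' hx' hy.im hy' h1 hyN' h2 hyx'
    have h3 : B x' = im (k * g) (B x) := by
      rw [im_mul, ← hBC.eqB g hg x hx, hgx, ← hBC.eqB k hk x' hx', hkx]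
    have h4 : B y' = im (k * g) (B y) := by
      rw [im_mul, ← hBC.eqB g hg y hy, ← hBC.eqB k hk (im g y) hy.im, hky]
    rw [h3, h4, ← im_sup, finrank_im]
  set θ := m - finrank F ↥(B x0 ⊔ B y0) with hθ
  -- the sets
  set D : Finset (Submodule F W × Submodule F W) :=
    Finset.univ.filter (fun p => Pt p.1 ∧ (Pt p.2 ∧ p.2 ≤ N p.1) ∧ p.2 ≠ p.1) with hD
  set Hs : Finset (Submodule F W) := Finset.univ.filter (fun H => Hy H) with hHs
  let r : Submodule F W × Submodule F W → Submodule F W → Prop :=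
    fun p H => p.1 ≤ C H ∧ p.2 ≤ C H
  have hdc := Finset.sum_card_bipartiteAbove_eq_sum_card_bipartiteBelow (s := D) (t := Hs) r
  -- left side
  have hl : ∀ p ∈ D, (Finset.bipartiteAbove r Hs p).card = br q θ := by
    rintro ⟨x, y⟩ hp
    rw [hD, Finset.mem_filter] at hp
    obtain ⟨-, hx, ⟨hy, hyN⟩, hyx⟩ := hp
    have e : Finset.bipartiteAbove r Hs (x, y) =
        Finset.univ.filter (fun H : Submodule F W => Hy H ∧ B x ⊔ B y ≤ H) := by
      ext H
      simp only [Finset.bipartiteAbove, hHs, Finset.mem_filter, Finset.mem_univ, true_and, r]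
      refine and_congr_right fun hH => ?_
      rw [hBC.adj x H hx hH, hBC.adj y H hy hH, sup_le_iff]
    rw [e, chys, hindep x y x0 y0 hx hy hyN hyx hx0 hy0 hy0N hy0x']
  -- right side
  have hr : ∀ H ∈ Hs, (Finset.bipartiteBelow r D H).card = br q c * br q c - br q c := by
    intro H hH
    rw [hHs, Finset.mem_filter] at hH
    have hH' : Hy H := hH.2
    have e : Finset.bipartiteBelow r D H =
        (Finset.univ.filter (fun x : Submodule F W => Pt x ∧ x ≤ C H)).offDiag := by
      ext ⟨x, y⟩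
      simp only [Finset.bipartiteBelow, hD, Finset.mem_filter, Finset.mem_univ, true_and, r,
        Finset.mem_offDiag]
      constructor
      · rintro ⟨⟨hx, ⟨hy, hyN⟩, hyx⟩, h1, h2⟩
        exact ⟨⟨hx, h1⟩, ⟨hy, h2⟩, hyx.symm⟩
      · rintro ⟨⟨hx, h1⟩, ⟨hy, h2⟩, hxy⟩
        exact ⟨⟨hx, ⟨hy, h2.trans (hCN x H hx hH' h1).2⟩, hxy.symm⟩, h1, h2⟩
    rw [e, Finset.offDiag_card, cpts, hBC.dimC H hH']
  have hHcard : Hs.card = br q m := by
    have h1 := chys ⊥
    rw [finrank_bot, Nat.sub_zero] at h1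
    rw [← h1, hHs]
    congr 1
    ext H
    simp
  have hDcard : D.card = br q m * (br q (n + 1) - 1) := by
    have hP : (Finset.univ.filter (fun x : Submodule F W => Pt x)).card = br q m := by
      have h1 := cpts ⊤
      rw [finrank_top] at h1
      rw [hm', ← h1]
      congr 1
      ext x
      simp
    have e1 : D.card = ∑ x ∈ Finset.univ.filter (fun x : Submodule F W => Pt x),
        (D.filter (fun p => p.1 = x)).card := by
      refine Finset.card_eq_sum_card_fiberwise ?_
      intro p hp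
      have hp' : p ∈ D := hp
      rw [hD, Finset.mem_filter] at hp'
      have : p.1 ∈ Finset.univ.filter (fun x : Submodule F W => Pt x) := by
        rw [Finset.mem_filter]
        exact ⟨Finset.mem_univ _, hp'.2.1⟩
      exact this
    have e2 : ∀ x ∈ Finset.univ.filter (fun x : Submodule F W => Pt x),
        (D.filter (fun p => p.1 = x)).card = br q (n + 1) - 1 := by
      intro x hx
      rw [Finset.mem_filter] at hx
      have hx' : Pt x := hx.2
      have e3 : D.filter (fun p => p.1 = x) =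
          ((Finset.univ.filter (fun y : Submodule F W => Pt y ∧ y ≤ N x)).erase x).image
            (fun y => (x, y)) := by
        ext ⟨a, b⟩
        simp only [hD, Finset.mem_filter, Finset.mem_univ, true_and, Finset.mem_image,
          Finset.mem_erase, Prod.mk.injEq]
        constructor
        · rintro ⟨⟨ha, ⟨hb, hbN⟩, hba⟩, rfl⟩
          exact ⟨b, ⟨hba, hb, hbN⟩, rfl, rfl⟩
        · rintro ⟨y, ⟨h1, h2, h3⟩, rfl, rfl⟩
          exact ⟨⟨hx', ⟨h2, h3⟩, h1⟩, rfl⟩
      rw [e3, Finset.card_image_of_injective _ (fun a b h => (Prod.mk.inj h).2),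
        Finset.card_erase_of_mem, cpts, hNN.dimN x hx']
      rw [Finset.mem_filter]
      exact ⟨Finset.mem_univ _, hx', hNN.selfN x hx'⟩
    rw [e1, Finset.sum_congr rfl e2, Finset.sum_const, hP, smul_eq_mul]
  rw [Finset.sum_congr rfl hl, Finset.sum_congr rfl hr, Finset.sum_const, Finset.sum_const,
    hHcard, hDcard, smul_eq_mul, smul_eq_mul] at hdc
  have hbm : 1 ≤ br q m := br_pos (by omega)
  have hn1 : br q (n + 1) - 1 = q * br q n := by
    rw [br_succ']
    omega
  obtain ⟨c', rfl⟩ : ∃ c', c = c' + 1 := ⟨c - 1, by omega⟩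
  have hc1 : br q (c' + 1) * br q (c' + 1) - br q (c' + 1) = br q (c' + 1) * (q * br q c') := by
    have h1 : br q (c' + 1) * br q (c' + 1) = br q (c' + 1) * (q * br q c') + br q (c' + 1) := by
      conv_lhs => rw [br_succ' q c']
      rw [br_succ' q c']
      ring
    rw [h1, Nat.add_sub_cancel]
  rw [hn1, hc1] at hdc
  have key : br q n * br q θ = br q (c' + 1) * br q (c' + 1 - 1) := by
    have h1 : (br q m * q) * (br q n * br q θ) = (br q m * q) * (br q (c' + 1) * br q c') := by
      calc (br q m * q) * (br q n * br q θ) = br q m * (q * br q n) * br q θ := by ring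
        _ = br q m * (br q (c' + 1) * (q * br q c')) := hdc
        _ = _ := by ring
    rw [Nat.add_sub_cancel]
    exact Nat.eq_of_mul_eq_mul_left (Nat.mul_pos (by omega) (by omega)) h1
  obtain ⟨h1, h2⟩ := arith hq2 hc hcn key
  refine ⟨h1, ?_⟩
  intro x y hx hy hyN hyx
  rw [hindep x y x0 y0 hx hy hyN hyx hx0 hy0 hy0N hy0x']
  have h3 : finrank F ↥(B x0 ⊔ B y0) ≤ m := Submodule.finrank_le _
  omega

end Pool.Agent.Helper27.GL4E2
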